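import Pool.Agent.Lib.MP_9d0a1e_co.AStep
import Pool.Agent.Lib.MP_9d0a1e_co.Plan
import Pool.Agent.Lib.MP_9d0a1e_co.Dodec
import Pool.Agent.Lib.MP_9d0a1e_co.Mono

/-!
# The maximum fully active cop number of planar graphs is 3 or 4

`CopsWin`, `activeCopNumber` and `Planar` are defined in `Pool.Agent.Lib.MP_9d0a1e_co.Defs`.
-/

namespace Pool.Agent.Results.MP_9d0a1e_co.ThreeOrFour

open Pool.Agent.Lib.MP9d0a1e

universe u

/-- `c*`: the least `c` such that the fully active cop number of every finite connected planar
graph with at least two vertices is at most `c`. -/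
noncomputable def cStar : ℕ :=
  sInf {c | ∀ (n : ℕ) (G : SimpleGraph (Fin n)), 2 ≤ n → G.Connected → Planar G →
    activeCopNumber G ≤ c}

/-- Four fully active cops win on every finite connected planar graph with at least two vertices,
two do not always suffice, and `3 ≤ c* ≤ 4`. -/
theorem result :
    (∀ (V : Type u) [Fintype V] (G : SimpleGraph V), G.Connected → 2 ≤ Fintype.card V →
      Planar G → CopsWin G 4) ∧
    3 ≤ cStar ∧ cStar ≤ 4 := by
  have hmem : 4 ∈ {c | ∀ (n : ℕ) (G : SimpleGraph (Fin n)), 2 ≤ n → G.Connected → Planar G →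
      activeCopNumber G ≤ c} := by
    intro n G hn hG hP
    exact Nat.sInf_le (specCore.{0} (Fin n) G hG (by simpa using hn) (specPlan (Fin n) G hG hP))
  refine ⟨fun V _ G hG hV hP => specCore V G hG hV (specPlan V G hG hP), ?_, Nat.sInf_le hmem⟩
  have h1 : activeCopNumber _ ≤ cStar :=
    Nat.sInf_mem ⟨4, hmem⟩ 20 specDodec.choose (by norm_num) specDodec.choose_spec.1
      specDodec.choose_spec.2.1
  refine le_trans ?_ h1
  have h4 : CopsWin specDodec.choose 4 :=
    specCore.{0} _ _ specDodec.choose_spec.1 (by simp)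
      (specPlan _ _ specDodec.choose_spec.1 specDodec.choose_spec.2.1)
  have h3 : CopsWin specDodec.choose (activeCopNumber specDodec.choose) :=
    Nat.sInf_mem (s := {k | CopsWin specDodec.choose k}) ⟨4, h4⟩
  exact three_le_of_not_two
    (fun v => specDodec.choose_spec.1.preconnected.exists_adj_of_nontrivial v)
    specDodec.choose_spec.2.2 h3

end Pool.Agent.Results.MP_9d0a1e_co.ThreeOrFour
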