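import Pool.Agent.Lib.MP_9d0a1e_co.Bip.TW
import Pool.Agent.Lib.MP_9d0a1e_co.Bip.Sq

/-!
# The fully active cop number is at most the treewidth

`CopsWin`, `activeCopNumber` and `Planar` are defined in `Pool.Agent.Lib.MP_9d0a1e_co.Defs`,
`HasTreeDecomp` in `Pool.Agent.Lib.MP_9d0a1e_co.Bip.TW`.
-/

namespace Pool.Agent.Results.MP_9d0a1e_co.Treewidth

open Pool.Agent.Lib.MP9d0a1e

universe u

/-- The least `c` such that the fully active cop number of every finite connected planar graph with
at least two vertices and treewidth at most `k` is at most `c`. -/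
noncomputable def cTW (k : ℕ) : ℕ :=
  sInf {c | ∀ (n : ℕ) (G : SimpleGraph (Fin n)), 2 ≤ n → G.Connected → Planar G →
    HasTreeDecomp G k → activeCopNumber G ≤ c}

/-- `k` fully active cops win on every finite connected graph with at least two vertices and a tree
decomposition of width at most `k`; the maximum of the fully active cop number over planar graphs
of treewidth at most 2 is exactly 2. -/
theorem result :
    (∀ (V : Type u) [Fintype V] (G : SimpleGraph V) (k : ℕ), G.Connected → 2 ≤ Fintype.card V →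
      HasTreeDecomp G k → CopsWin G k) ∧
    cTW 2 = 2 := by
  have hup : ∀ (k n : ℕ) (G : SimpleGraph (Fin n)), 2 ≤ n → G.Connected → Planar G →
      HasTreeDecomp G k → activeCopNumber G ≤ k := fun k n G hn hG _ hT =>
    Nat.sInf_le (coreTW hG (by simpa using hn) hT)
  refine ⟨fun V _ G k hG hV hT => coreTW hG hV hT, ?_⟩
  refine le_antisymm (Nat.sInf_le (hup 2)) ?_
  have hmem : 2 ∈ {c | ∀ (n : ℕ) (G : SimpleGraph (Fin n)), 2 ≤ n → G.Connected → Planar G →
      HasTreeDecomp G 2 → activeCopNumber G ≤ c} := hup 2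
  have h1 : activeCopNumber Sq.G ≤ cTW 2 :=
    Nat.sInf_mem ⟨2, hmem⟩ 4 Sq.G (by norm_num) Sq.connected Sq.planar Sq.tw
  refine le_trans ?_ h1
  have h3 : CopsWin Sq.G (activeCopNumber Sq.G) :=
    Nat.sInf_mem (s := {k | CopsWin Sq.G k}) ⟨2, coreTW Sq.connected (by simp) Sq.tw⟩
  exact Sq.two_le h3

end Pool.Agent.Results.MP_9d0a1e_co.Treewidth
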