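import Pool.Agent.Lib.MP_9d0a1e_co.Bip.Dbl
import Pool.Agent.Lib.MP_9d0a1e_co.Bip.Sub
import Pool.Agent.Lib.MP_9d0a1e_co.Mono

/-!
# Three fully active cops on planar graphs with at most two odd faces

`CopsWin`, `activeCopNumber` and `Planar` are defined in `Pool.Agent.Lib.MP_9d0a1e_co.Defs`,
`PlanarOdd` in `Pool.Agent.Lib.MP_9d0a1e_co.Bip.Dbl`.
-/

namespace Pool.Agent.Results.MP_9d0a1e_co.TwoOddFaces

open Pool.Agent.Lib.MP9d0a1e

universe u

/-- The least `c` such that the fully active cop number of every finite connected planar graph with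
at least two vertices and an embedding with at most two faces of odd length is at most `c`. -/
noncomputable def cOdd : ℕ :=
  sInf {c | ∀ (n : ℕ) (G : SimpleGraph (Fin n)), 2 ≤ n → G.Connected → PlanarOdd G 2 →
    activeCopNumber G ≤ c}

/-- The least `c` such that the fully active cop number of every finite connected bipartite planar
graph with at least two vertices is at most `c`. -/
noncomputable def cBip : ℕ :=
  sInf {c | ∀ (n : ℕ) (G : SimpleGraph (Fin n)), 2 ≤ n → G.Connected → Planar G →
    G.Colorable 2 → activeCopNumber G ≤ c}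

theorem col_of_colorable {V : Type u} {G : SimpleGraph V} (h : G.Colorable 2) :
    ∃ col : V → Bool, Col G col := by
  obtain ⟨C⟩ := h
  refine ⟨fun v => decide (C v = 0), fun u v huv h1 => C.valid huv ?_⟩
  have h2 : C u = 0 ↔ C v = 0 := by simpa using h1
  have h3 : ∀ a b : Fin 2, (a = 0 ↔ b = 0) → a = b := by decide
  exact h3 _ _ h2

/-- Every embedding of a bipartite graph has only faces of even length. -/
theorem planarOdd_of_col {V : Type u} [Fintype V] {G : SimpleGraph V} {col : V → Bool}
    (hcol : Col G col) (h : Planar G) : PlanarOdd G 0 := by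
  classical
  obtain ⟨k, hE, σ, φ, face, p1, p2, p3, p4, p5⟩ := h
  refine ⟨k, hE, σ, φ, face, p1, p2, p3, p4, p5, ?_⟩
  have h1 : {f : Fin k | Odd (Nat.card {d : G.Dart // face d = f})} = ∅ := by
    rw [Set.eq_empty_iff_forall_notMem]
    intro f hf
    obtain ⟨d, rfl⟩ := p5 f
    have hL := (exists_par φ face p4 p5).1 d
    have key : ∀ (n : ℕ) (d : G.Dart), col ((φ ^ n) d).fst = xor (Nat.bodd n) (col d.fst) := by
      intro n
      induction n with
      | zero => intro d; simp
      | succ n ih =>
        intro d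
        rw [pow_succ, Equiv.Perm.mul_apply, ih, p3, p1, Nat.bodd_succ]
        have h2 := hcol _ _ d.adj
        show xor (Nat.bodd n) (col d.snd) = _
        revert h2
        cases col d.fst <;> cases col d.snd <;> cases Nat.bodd n <;> simp
    have h2 := key (Nat.card {d' : G.Dart // face d' = face d}) d
    rw [hL] at h2
    have h3 : Nat.card {d' : G.Dart // face d' = face d} % 2 = 1 := Nat.odd_iff.1 hf
    rw [Nat.mod_two_of_bodd] at h3
    revert h2 h3
    cases Nat.bodd (Nat.card {d' : G.Dart // face d' = face d}) <;> cases col d.fst <;> simp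
  rw [h1, Set.ncard_empty]

theorem PlanarOdd.mono {V : Type u} [Fintype V] {G : SimpleGraph V} {m n : ℕ}
    (h : PlanarOdd G m) (hmn : m ≤ n) : PlanarOdd G n := by
  obtain ⟨k, hE, σ, φ, face, p1, p2, p3, p4, p5, p6⟩ := h
  exact ⟨k, hE, σ, φ, face, p1, p2, p3, p4, p5, p6.trans hmn⟩

/-- Three fully active cops win on every finite connected planar graph which has at least two
vertices and an embedding with at most two faces of odd length, and three is best possible already
for bipartite planar graphs. -/
theorem result :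
    (∀ (V : Type u) [Fintype V] (G : SimpleGraph V), G.Connected → 2 ≤ Fintype.card V →
      PlanarOdd G 2 → CopsWin G 3) ∧
    cOdd = 3 ∧ cBip = 3 := by
  have hup : ∀ (n : ℕ) (G : SimpleGraph (Fin n)), 2 ≤ n → G.Connected → PlanarOdd G 2 →
      activeCopNumber G ≤ 3 := fun n G hn hG hP =>
    Nat.sInf_le (core_two_odd hG (by simpa using hn) hP)
  have hbip : ∀ (n : ℕ) (G : SimpleGraph (Fin n)), Planar G → G.Colorable 2 → PlanarOdd G 2 := by
    intro n G hP hc
    obtain ⟨col, hcol⟩ := col_of_colorable hc
    exact PlanarOdd.mono (planarOdd_of_col hcol hP) (by omega)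
  have hcS : Sub.G.Colorable 2 := by
    refine ⟨SimpleGraph.Coloring.mk (fun v => if v.val < 20 then (0 : Fin 2) else 1) ?_⟩
    intro u v huv h
    apply Sub.bipartite u v huv
    by_cases h1 : u.val < 20 <;> by_cases h2 : v.val < 20 <;> simp [h1, h2] at h ⊢
  have hS : 3 ≤ activeCopNumber Sub.G := by
    have h4 : CopsWin Sub.G 3 := core_two_odd Sub.connected (by simp) (hbip _ _ Sub.planar hcS)
    have h3 : CopsWin Sub.G (activeCopNumber Sub.G) :=
      Nat.sInf_mem (s := {k | CopsWin Sub.G k}) ⟨3, h4⟩
    have : Nonempty (Fin 50) := ⟨0⟩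
    exact three_le_of_not_two (fun v => Sub.connected.preconnected.exists_adj_of_nontrivial v)
      Sub.not_cops_win h3
  refine ⟨fun V _ G hG hV hP => core_two_odd hG hV hP, ?_, ?_⟩
  · refine le_antisymm (Nat.sInf_le hup) ?_
    have hmem : 3 ∈ {c | ∀ (n : ℕ) (G : SimpleGraph (Fin n)), 2 ≤ n → G.Connected →
        PlanarOdd G 2 → activeCopNumber G ≤ c} := hup
    have h1 : activeCopNumber Sub.G ≤ cOdd :=
      Nat.sInf_mem ⟨3, hmem⟩ 50 Sub.G (by norm_num) Sub.connected (hbip _ _ Sub.planar hcS)
    exact hS.trans h1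
  · have hup' : ∀ (n : ℕ) (G : SimpleGraph (Fin n)), 2 ≤ n → G.Connected → Planar G →
        G.Colorable 2 → activeCopNumber G ≤ 3 := fun n G hn hG hP hc =>
      hup n G hn hG (hbip n G hP hc)
    refine le_antisymm (Nat.sInf_le hup') ?_
    have hmem : 3 ∈ {c | ∀ (n : ℕ) (G : SimpleGraph (Fin n)), 2 ≤ n → G.Connected → Planar G →
        G.Colorable 2 → activeCopNumber G ≤ c} := hup'
    have h1 : activeCopNumber Sub.G ≤ cBip :=
      Nat.sInf_mem ⟨3, hmem⟩ 50 Sub.G (by norm_num) Sub.connected Sub.planar hcS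
    exact hS.trans h1

end Pool.Agent.Results.MP_9d0a1e_co.TwoOddFaces
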